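import Mathlib

/-!
# bnr-independent broadcasts versus minimal dominating broadcasts (helper file)

* definitions of broadcasts, `Γ_b` and `α_bnr`;
* the strong product with a complete graph (`blow`) does not increase `Γ_b` and does not decrease
  `α_bnr`;
* a family of graphs `GG k` with `α_bnr ≥ 3k` and `Γ_b ≤ 2k + 20`.
-/

namespace Pool.Agent.KS6_49.BN

open SimpleGraph Finset

section defs

variable {V : Type} [Fintype V] (G : SimpleGraph V)

/-- Eccentricity. -/
noncomputable def ecc (v : V) : ℕ := univ.sup (fun u => G.dist v u)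

/-- Diameter. -/
noncomputable def diameter : ℕ := univ.sup (fun v => ecc G v)

/-- Broadcasts: `f v ∈ {0, …, diam}` and `f v ≤ e(v)`. -/
def IsBroadcast (f : V → ℕ) : Prop := ∀ v, f v ≤ diameter G ∧ f v ≤ ecc G v

/-- The weight of a broadcast. -/
def weight (f : V → ℕ) : ℕ := ∑ v, f v

/-- `u` hears `f` from `v`. -/
def Hears (f : V → ℕ) (u v : V) : Prop := 0 < f v ∧ G.dist u v ≤ f v

/-- Dominating broadcasts. -/
def Dominating (f : V → ℕ) : Prop := IsBroadcast G f ∧ ∀ u, ∃ v, Hears G f u v

/-- Minimal dominating broadcasts. -/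
def MinDominating (f : V → ℕ) : Prop :=
  Dominating G f ∧ ∀ g, IsBroadcast G g → g ≤ f → g ≠ f → ¬ Dominating G g

/-- The upper broadcast domination number. -/
noncomputable def Gammab : ℕ := sSup {c | ∃ f : V → ℕ, MinDominating G f ∧ weight f = c}

/-- The broadcast which agrees with `f` except for the value `f v - 1` at `v`. -/
noncomputable def fminus (f : V → ℕ) (v : V) : V → ℕ := by
  classical exact Function.update f v (f v - 1)

/-- Private boundary of `v`. -/
def PB (f : V → ℕ) (v : V) : Set V :=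
  {u | G.dist u v ≤ f v ∧ ∀ w, ¬ Hears G (fminus f v) u w}

/-- Irredundant broadcasts. -/
def Irredundant (f : V → ℕ) : Prop := IsBroadcast G f ∧ ∀ v, 0 < f v → (PB G f v).Nonempty

/-- The ball `N_f(v)`. -/
def NN (f : V → ℕ) (v : V) : Set V := {u | G.dist u v ≤ f v}

/-- The sphere `B_f(v)`. -/
def BB (f : V → ℕ) (v : V) : Set V := {u | G.dist u v = f v}

/-- bn-independent broadcasts. -/
def BnIndep (f : V → ℕ) : Prop :=
  IsBroadcast G f ∧ ∀ u v, 0 < f u → 0 < f v → u ≠ v → NN G f u ∩ NN G f v ⊆ BB G f u ∩ BB G f v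

/-- The bnr-independence number. -/
noncomputable def alphaBnr : ℕ :=
  sSup {c | ∃ f : V → ℕ, BnIndep G f ∧ Irredundant G f ∧ weight f = c}

end defs

section general

variable {V : Type} [Fintype V] {G : SimpleGraph V}

omit [Fintype V] in
theorem fminus_self (f : V → ℕ) (v : V) : fminus f v v = f v - 1 := by
  simp [fminus]

omit [Fintype V] in
theorem fminus_ne (f : V → ℕ) (v w : V) (h : w ≠ v) : fminus f v w = f w := by
  simp [fminus, h]

omit [Fintype V] in
theorem fminus_le (f : V → ℕ) (v w : V) : fminus f v w ≤ f w := by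
  by_cases h : w = v
  · subst h; rw [fminus_self]; omega
  · rw [fminus_ne _ _ _ h]

theorem dist_le_ecc (u v : V) : G.dist u v ≤ ecc G v := by
  rw [G.dist_comm]
  exact Finset.le_sup (f := fun u => G.dist v u) (mem_univ u)

theorem ecc_le_diam (v : V) : ecc G v ≤ diameter G :=
  Finset.le_sup (f := fun v => ecc G v) (mem_univ v)

theorem ecc_pos [Nontrivial V] (hc : G.Connected) (v : V) : 0 < ecc G v := by
  obtain ⟨u, hu⟩ := exists_ne v
  have h1 := dist_le_ecc (G := G) u v
  have h2 := hc.pos_dist_of_ne hu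
  omega

omit [Fintype V] in
theorem dist_one {u v : V} (h : G.Adj u v) : G.dist u v ≤ 1 := by
  have := G.dist_le h.toWalk
  simpa using this

/-- A minimal dominating broadcast is irredundant. -/
theorem irr_of_min {f : V → ℕ} (hf : MinDominating G f) : Irredundant G f := by
  refine ⟨hf.1.1, ?_⟩
  intro v hv
  have hbc : IsBroadcast G (fminus f v) := fun w =>
    ⟨le_trans (fminus_le f v w) (hf.1.1 w).1, le_trans (fminus_le f v w) (hf.1.1 w).2⟩
  have hne : fminus f v ≠ f := by
    intro h
    have := congrFun h v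
    rw [fminus_self] at this
    omega
  have hnot := hf.2 (fminus f v) hbc (fminus_le f v) hne
  have hex : ∃ u, ∀ w, ¬ Hears G (fminus f v) u w := by
    by_contra hcon
    push Not at hcon
    exact hnot ⟨hbc, hcon⟩
  obtain ⟨u, hu⟩ := hex
  obtain ⟨w, hw⟩ := hf.1.2 u
  by_cases hwv : w = v
  · subst hwv
    exact ⟨u, hw.2, hu⟩
  · exfalso
    apply hu w
    unfold Hears
    rw [fminus_ne _ _ _ hwv]
    exact hw

/-- A dominating irredundant broadcast is minimal dominating. -/
theorem min_of_irr {f : V → ℕ} (hd : ∀ u, ∃ v, Hears G f u v) (hi : Irredundant G f) :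
    MinDominating G f := by
  refine ⟨⟨hi.1, hd⟩, ?_⟩
  intro g _ hgf hne hg
  have hex : ∃ v, g v ≠ f v := by
    by_contra hall
    push Not at hall
    exact hne (funext hall)
  obtain ⟨v, hv⟩ := hex
  have hlt : g v < f v := lt_of_le_of_ne (hgf v) hv
  obtain ⟨u, _, hu⟩ := hi.2 v (by omega)
  obtain ⟨w, hw1, hw2⟩ := hg.2 u
  apply hu w
  have hle : g w ≤ fminus f v w := by
    by_cases h : w = v
    · subst h; rw [fminus_self]; omega
    · rw [fminus_ne _ _ _ h]; exact hgf w
  exact ⟨by omega, by omega⟩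

/-- Choice of private boundary vertices. -/
theorem private_choice {f : V → ℕ} (hf : Irredundant G f) (hc : G.Connected) :
    ∃ p : V → V, ∀ v, 0 < f v → G.dist (p v) v ≤ f v ∧
      (∀ w, w ≠ v → 0 < f w → f w < G.dist (p v) w) ∧
      (G.dist (p v) v = f v ∨ (f v = 1 ∧ p v = v)) := by
  have h : ∀ v, ∃ u, 0 < f v → G.dist u v ≤ f v ∧
      (∀ w, w ≠ v → 0 < f w → f w < G.dist u w) ∧ (G.dist u v = f v ∨ (f v = 1 ∧ u = v)) := by
    intro v
    by_cases hv : 0 < f v
    · obtain ⟨u, hu1, hu2⟩ := hf.2 v hv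
      refine ⟨u, fun _ => ⟨hu1, ?_, ?_⟩⟩
      · intro w hwv hw
        by_contra hle
        push Not at hle
        apply hu2 w
        unfold Hears
        rw [fminus_ne _ _ _ hwv]
        exact ⟨hw, hle⟩
      · have h1 := hu2 v
        unfold Hears at h1
        rw [fminus_self] at h1
        by_cases h1' : f v = 1
        · by_cases hd : G.dist u v = 0
          · right
            exact ⟨h1', (hc.dist_eq_zero_iff).1 hd⟩
          · left; omega
        · left
          by_contra hne
          apply h1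
          exact ⟨by omega, by omega⟩
    · exact ⟨v, fun h => absurd h hv⟩
  choose p hp using h
  exact ⟨p, hp⟩

/-- Converse: private vertices give irredundance. -/
theorem irr_of_private {f : V → ℕ} (hb : IsBroadcast G f)
    (h : ∀ v, 0 < f v → ∃ u, (∀ w, w ≠ v → 0 < f w → f w < G.dist u w) ∧
      G.dist u v ≤ f v ∧ (G.dist u v = f v ∨ f v = 1)) : Irredundant G f := by
  refine ⟨hb, ?_⟩
  intro v hv
  obtain ⟨u, h1, h2, h3⟩ := h v hv
  refine ⟨u, h2, ?_⟩
  rintro w ⟨hw1, hw2⟩
  by_cases hwv : w = v
  · subst hwv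
    rw [fminus_self] at hw1 hw2
    omega
  · rw [fminus_ne _ _ _ hwv] at hw1 hw2
    have := h1 w hwv hw1
    omega

theorem weight_le (f : V → ℕ) (hf : IsBroadcast G f) :
    weight f ≤ Fintype.card V * diameter G := by
  unfold weight
  calc ∑ v, f v ≤ ∑ _v : V, diameter G := Finset.sum_le_sum fun v _ => (hf v).1
    _ = Fintype.card V * diameter G := by simp

theorem bdd_gamma : BddAbove {c | ∃ f : V → ℕ, MinDominating G f ∧ weight f = c} := by
  refine ⟨Fintype.card V * diameter G, ?_⟩
  rintro c ⟨f, hf, rfl⟩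
  exact weight_le f hf.1.1

theorem bdd_alpha :
    BddAbove {c | ∃ f : V → ℕ, BnIndep G f ∧ Irredundant G f ∧ weight f = c} := by
  refine ⟨Fintype.card V * diameter G, ?_⟩
  rintro c ⟨f, hf, _, rfl⟩
  exact weight_le f hf.1

omit [Fintype V] in
/-- A table of distances certified locally. -/
theorem dist_of_table (D : V → V → ℕ)
    (h0 : ∀ u, D u u = 0)
    (h1 : ∀ u v w, G.Adj v w → D u w ≤ D u v + 1)
    (h2 : ∀ u v, u ≠ v → ∃ w, G.Adj w v ∧ D u w + 1 = D u v) :
    G.Preconnected ∧ ∀ u v, G.dist u v = D u v := by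
  have lower : ∀ u v w (p : G.Walk v w), D u w ≤ D u v + p.length := by
    intro u v w p
    induction p with
    | nil => simp
    | cons hadj p ih =>
      have := h1 u _ _ hadj
      simp only [Walk.length_cons]
      omega
  have upper : ∀ n u v, D u v = n → ∃ p : G.Walk u v, p.length = n := by
    intro n
    induction n with
    | zero =>
      intro u v h
      have : u = v := by
        by_contra hne
        obtain ⟨w, _, hw⟩ := h2 u v hne
        omega
      subst this
      exact ⟨Walk.nil, rfl⟩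
    | succ n ih =>
      intro u v h
      have hne : u ≠ v := by
        rintro rfl
        rw [h0] at h
        omega
      obtain ⟨w, hadj, hw⟩ := h2 u v hne
      obtain ⟨p, hp⟩ := ih u w (by omega)
      exact ⟨p.concat hadj, by simp [hp]⟩
  have hpre : G.Preconnected := by
    intro u v
    obtain ⟨p, _⟩ := upper _ u v rfl
    exact ⟨p⟩
  refine ⟨hpre, ?_⟩
  intro u v
  apply le_antisymm
  · obtain ⟨p, hp⟩ := upper _ u v rfl
    rw [← hp]
    exact G.dist_le p
  · obtain ⟨p, hp⟩ := (hpre u v).exists_walk_length_eq_dist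
    have := lower u u v p
    rw [h0] at this
    omega

end general

/-! ### Blow-up -/

section blow

variable {V : Type} [Fintype V] (G : SimpleGraph V) (t : ℕ)

/-- The strong product of `G` with the complete graph on `t` vertices: every vertex is replaced by
`t` pairwise adjacent twins. -/
def blow : SimpleGraph (V × Fin t) where
  Adj x y := G.Adj x.1 y.1 ∨ (x.1 = y.1 ∧ x.2 ≠ y.2)
  symm := ⟨fun x y h => by
    rcases h with h | ⟨h1, h2⟩
    · exact Or.inl h.symm
    · exact Or.inr ⟨h1.symm, h2.symm⟩⟩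
  loopless := ⟨fun x h => by
    rcases h with h | ⟨_, h2⟩
    · exact G.irrefl h
    · exact h2 rfl⟩

omit [Fintype V] in
theorem blow_adj (x y : V × Fin t) :
    (blow G t).Adj x y ↔ G.Adj x.1 y.1 ∨ (x.1 = y.1 ∧ x.2 ≠ y.2) := Iff.rfl

omit [Fintype V] in
theorem proj_walk {x y : V × Fin t} (p : (blow G t).Walk x y) :
    ∃ q : G.Walk x.1 y.1, q.length ≤ p.length := by
  induction p with
  | nil => exact ⟨Walk.nil, le_rfl⟩
  | cons h p ih =>
    obtain ⟨q, hq⟩ := ih
    rcases h with h | ⟨h, _⟩
    · exact ⟨Walk.cons h q, by simp only [Walk.length_cons]; omega⟩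
    · refine ⟨q.copy h.symm rfl, ?_⟩
      rw [Walk.length_copy, Walk.length_cons]
      omega

omit [Fintype V] in
theorem lift_walk {u v : V} (q : G.Walk u v) : ∀ (i j : Fin t), 0 < q.length →
    ∃ p : (blow G t).Walk (u, i) (v, j), p.length = q.length := by
  induction q with
  | nil => intro i j h; simp at h
  | cons h q ih =>
    rename_i a b c
    intro i j _
    by_cases hq : 0 < q.length
    · obtain ⟨p, hp⟩ := ih i j hq
      have hadj : (blow G t).Adj (a, i) (b, i) := Or.inl h
      exact ⟨Walk.cons hadj p, by simp [hp]⟩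
    · have hq0 : q.length = 0 := by omega
      have hbc : b = c := Walk.eq_of_length_eq_zero hq0
      subst hbc
      have hadj : (blow G t).Adj (a, i) (b, j) := Or.inl h
      exact ⟨Walk.cons hadj Walk.nil, by simp [hq0]⟩

omit [Fintype V] in
theorem blow_connected (hc : G.Connected) (ht : 0 < t) : (blow G t).Connected := by
  obtain ⟨v0⟩ := hc.nonempty
  have : Nonempty (V × Fin t) := ⟨(v0, ⟨0, ht⟩)⟩
  refine ⟨?_⟩
  rintro ⟨u, i⟩ ⟨v, j⟩
  by_cases huv : u = v
  · subst huv
    by_cases hij : i = j
    · subst hij; exact Reachable.refl _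
    · have hadj : (blow G t).Adj (u, i) (u, j) := Or.inr ⟨rfl, hij⟩
      exact hadj.reachable
  · obtain ⟨q, hq⟩ := hc.exists_walk_length_eq_dist u v
    have hpos := hc.pos_dist_of_ne huv
    obtain ⟨p, _⟩ := lift_walk G t q i j (by omega)
    exact ⟨p⟩

omit [Fintype V] in
theorem blow_dist_ge (hc : G.Connected) (ht : 0 < t) (x y : V × Fin t) :
    G.dist x.1 y.1 ≤ (blow G t).dist x y := by
  obtain ⟨p, hp⟩ := (blow_connected G t hc ht).exists_walk_length_eq_dist x y
  obtain ⟨q, hq⟩ := proj_walk G t p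
  have := G.dist_le q
  omega

omit [Fintype V] in
theorem blow_dist_ne (hc : G.Connected) (ht : 0 < t) {x y : V × Fin t} (h : x.1 ≠ y.1) :
    (blow G t).dist x y = G.dist x.1 y.1 := by
  apply le_antisymm
  · obtain ⟨q, hq⟩ := hc.exists_walk_length_eq_dist x.1 y.1
    have hpos := hc.pos_dist_of_ne h
    obtain ⟨p, hp⟩ := lift_walk G t q x.2 y.2 (by omega)
    have h2 : (blow G t).dist x y ≤ p.length := (blow G t).dist_le p
    omega
  · exact blow_dist_ge G t hc ht x y

omit [Fintype V] in
theorem blow_dist_same {x y : V × Fin t} (h : x.1 = y.1) : (blow G t).dist x y ≤ 1 := by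
  by_cases h2 : x.2 = y.2
  · have : x = y := Prod.ext h h2
    subst this
    simp
  · exact dist_one (Or.inr ⟨h, h2⟩)

theorem blow_ecc [Nontrivial V] (hc : G.Connected) (ht : 0 < t) (x : V × Fin t) :
    ecc (blow G t) x = ecc G x.1 := by
  apply le_antisymm
  · unfold ecc
    apply Finset.sup_le
    intro y _
    by_cases h : x.1 = y.1
    · have h1 := blow_dist_same G t h
      have h2 := ecc_pos hc x.1
      unfold ecc at h2
      omega
    · rw [blow_dist_ne G t hc ht h]
      exact Finset.le_sup (f := fun u => G.dist x.1 u) (mem_univ y.1)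
  · unfold ecc
    apply Finset.sup_le
    intro u _
    refine le_trans (blow_dist_ge G t hc ht x (u, ⟨0, ht⟩)) ?_
    exact Finset.le_sup (f := fun y => (blow G t).dist x y) (mem_univ _)

theorem blow_diam [Nontrivial V] (hc : G.Connected) (ht : 0 < t) :
    diameter (blow G t) = diameter G := by
  apply le_antisymm
  · unfold diameter
    apply Finset.sup_le
    intro x _
    rw [blow_ecc G t hc ht]
    exact Finset.le_sup (f := fun v => ecc G v) (mem_univ x.1)
  · unfold diameter
    apply Finset.sup_le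
    intro v _
    rw [← blow_ecc G t hc ht (v, ⟨0, ht⟩)]
    exact Finset.le_sup (f := fun v => ecc (blow G t) v) (mem_univ _)

theorem Gammab_blow [Nontrivial V] (hc : G.Connected) (ht : 0 < t) :
    Gammab (blow G t) ≤ Gammab G := by
  unfold Gammab
  apply csSup_le'
  rintro c ⟨g', hg', rfl⟩
  have hirr := irr_of_min hg'
  have hcb := blow_connected G t hc ht
  obtain ⟨p, hp⟩ := private_choice hirr hcb
  -- at most one twin broadcasts
  have huniq : ∀ v i j, 0 < g' (v, i) → 0 < g' (v, j) → i = j := by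
    have key : ∀ v i j, 0 < g' (v, i) → 0 < g' (v, j) → g' (v, j) ≤ g' (v, i) → i = j := by
      intro v i j hi hj hle
      by_contra hij
      obtain ⟨h1, h2, _⟩ := hp (v, j) hj
      have h3 := h2 (v, i) (by simp [hij]) hi
      by_cases hpv : (p (v, j)).1 = v
      · have := blow_dist_same G t (x := p (v, j)) (y := (v, i)) hpv
        omega
      · rw [blow_dist_ne G t hc ht (x := p (v, j)) (y := (v, i)) hpv] at h3
        rw [blow_dist_ne G t hc ht (x := p (v, j)) (y := (v, j)) hpv] at h1
        simp only at h1 h3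
        omega
    intro v i j hi hj
    rcases le_total (g' (v, j)) (g' (v, i)) with h | h
    · exact key v i j hi hj h
    · exact (key v j i hj hi h).symm
  let g : V → ℕ := fun v => ∑ i, g' (v, i)
  have hg_eq : ∀ v i, 0 < g' (v, i) → g v = g' (v, i) := by
    intro v i hi
    apply Finset.sum_eq_single i
    · intro j _ hji
      by_contra hne
      exact hji (huniq v j i (Nat.pos_of_ne_zero hne) hi)
    · intro h; exact absurd (mem_univ i) h
  have hg_ex : ∀ v, 0 < g v → ∃ i, 0 < g' (v, i) := by
    intro v hv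
    by_contra hno
    push Not at hno
    have : g v = 0 := Finset.sum_eq_zero fun i _ => by have := hno i; omega
    omega
  have hw : weight g' = weight g := by
    unfold weight
    rw [Fintype.sum_prod_type]
  rw [hw]
  apply le_csSup bdd_gamma
  refine ⟨g, ?_, rfl⟩
  apply min_of_irr
  · intro u
    obtain ⟨⟨v, i⟩, hv1, hv2⟩ := hg'.1.2 (u, ⟨0, ht⟩)
    refine ⟨v, by rw [hg_eq v i hv1]; exact hv1, ?_⟩
    rw [hg_eq v i hv1]
    exact le_trans (blow_dist_ge G t hc ht (u, ⟨0, ht⟩) (v, i)) hv2
  · apply irr_of_private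
    · intro v
      by_cases hv : 0 < g v
      · obtain ⟨i, hi⟩ := hg_ex v hv
        rw [hg_eq v i hi]
        have := hg'.1.1 (v, i)
        rw [blow_ecc G t hc ht, blow_diam G t hc ht] at this
        exact this
      · have : g v = 0 := by omega
        rw [this]
        exact ⟨by omega, by omega⟩
    · intro v hv
      obtain ⟨i, hi⟩ := hg_ex v hv
      obtain ⟨h1, h2, h3⟩ := hp (v, i) hi
      rw [hg_eq v i hi]
      refine ⟨(p (v, i)).1, ?_, ?_, ?_⟩
      · intro w hwv hw
        obtain ⟨j, hj⟩ := hg_ex w hw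
        rw [hg_eq w j hj]
        have h4 := h2 (w, j) (by intro h; exact hwv (congrArg Prod.fst h)) hj
        by_cases hpw : (p (v, i)).1 = w
        · have := blow_dist_same G t (x := p (v, i)) (y := (w, j)) hpw
          omega
        · rw [blow_dist_ne G t hc ht (x := p (v, i)) (y := (w, j)) hpw] at h4
          exact h4
      · exact le_trans (blow_dist_ge G t hc ht (p (v, i)) (v, i)) h1
      · by_cases hpv : (p (v, i)).1 = v
        · right
          have := blow_dist_same G t (x := p (v, i)) (y := (v, i)) hpv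
          rcases h3 with h3 | h3
          · omega
          · exact h3.1
        · rcases h3 with h3 | h3
          · left
            rw [blow_dist_ne G t hc ht (x := p (v, i)) (y := (v, i)) hpv] at h3
            exact h3
          · right; exact h3.1

theorem alpha_blow [Nontrivial V] (hc : G.Connected) (ht : 0 < t) :
    alphaBnr G ≤ alphaBnr (blow G t) := by
  unfold alphaBnr
  apply csSup_le'
  rintro c ⟨f, hf, hirr, rfl⟩
  apply le_csSup bdd_alpha
  obtain ⟨p, hp⟩ := private_choice hirr hc
  let f' : V × Fin t → ℕ := fun x => if x.2 = ⟨0, ht⟩ then f x.1 else 0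
  have hf'1 : ∀ x, 0 < f' x → x.2 = ⟨0, ht⟩ := by
    intro x hx
    by_contra h
    simp [f', h] at hx
  have hf'2 : ∀ x, 0 < f' x → f' x = f x.1 := by
    intro x hx
    simp [f', hf'1 x hx]
  have hf'3 : ∀ x, 0 < f' x → x = (x.1, ⟨0, ht⟩) := fun x hx => Prod.ext rfl (hf'1 x hx)
  have hbr : IsBroadcast (blow G t) f' := by
    intro x
    rw [blow_ecc G t hc ht, blow_diam G t hc ht]
    by_cases hx : 0 < f' x
    · rw [hf'2 x hx]; exact hf.1 x.1
    · exact ⟨by omega, by omega⟩
  have hne1 : ∀ x y, 0 < f' x → 0 < f' y → x ≠ y → x.1 ≠ y.1 := by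
    intro x y hx hy hxy h
    apply hxy
    rw [hf'3 x hx, hf'3 y hy, h]
  refine ⟨f', ⟨hbr, ?_⟩, ?_, ?_⟩
  · intro x y hx hy hxy
    rintro z ⟨hz1, hz2⟩
    have hz1' : (blow G t).dist z x ≤ f' x := hz1
    have hz2' : (blow G t).dist z y ≤ f' y := hz2
    have hfx := hf'2 x hx
    have hfy := hf'2 y hy
    have h1 : z.1 ∈ NN G f x.1 := by
      show G.dist z.1 x.1 ≤ f x.1
      have := blow_dist_ge G t hc ht z x
      omega
    have h2 : z.1 ∈ NN G f y.1 := by
      show G.dist z.1 y.1 ≤ f y.1
      have := blow_dist_ge G t hc ht z y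
      omega
    have h3 := hf.2 x.1 y.1 (by omega) (by omega) (hne1 x y hx hy hxy) ⟨h1, h2⟩
    have h4 : G.dist z.1 x.1 = f x.1 := h3.1
    have h5 : G.dist z.1 y.1 = f y.1 := h3.2
    have hzx : z.1 ≠ x.1 := by
      intro h
      rw [h, SimpleGraph.dist_self] at h4
      omega
    have hzy : z.1 ≠ y.1 := by
      intro h
      rw [h, SimpleGraph.dist_self] at h5
      omega
    constructor
    · show (blow G t).dist z x = f' x
      rw [blow_dist_ne G t hc ht hzx, h4, hfx]
    · show (blow G t).dist z y = f' y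
      rw [blow_dist_ne G t hc ht hzy, h5, hfy]
  · apply irr_of_private hbr
    intro x hx
    have hfx := hf'2 x hx
    obtain ⟨h1, h2, h3⟩ := hp x.1 (by omega)
    refine ⟨(p x.1, ⟨0, ht⟩), ?_, ?_, ?_⟩
    · intro y hyx hy
      have hfy := hf'2 y hy
      have h4 := h2 y.1 (hne1 y x hy hx hyx) (by omega)
      have h5 := blow_dist_ge G t hc ht (p x.1, ⟨0, ht⟩) y
      simp only at h5
      omega
    · by_cases hpx : p x.1 = x.1
      · rw [hpx, ← hf'3 x hx]
        simp
      · rw [blow_dist_ne G t hc ht (x := (p x.1, ⟨0, ht⟩)) (y := x) hpx]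
        simp only
        omega
    · by_cases hpx : p x.1 = x.1
      · right
        rcases h3 with h3 | h3
        · rw [hpx, SimpleGraph.dist_self] at h3
          omega
        · omega
      · rcases h3 with h3 | h3
        · left
          rw [blow_dist_ne G t hc ht (x := (p x.1, ⟨0, ht⟩)) (y := x) hpx]
          simp only
          omega
        · right; omega
  · unfold weight
    rw [Fintype.sum_prod_type]
    simp [f']

omit [Fintype V] in
/-- No cut vertex. -/
theorem blow_no_cut (hc : G.Connected) (ht : 2 ≤ t) (x : V × Fin t) :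
    ((blow G t).induce {x}ᶜ).Connected := by
  have key : ∀ {u v : V} (q : G.Walk u v) (i j : Fin t) (hi : (u, i) ∈ ({x}ᶜ : Set (V × Fin t)))
      (hj : (v, j) ∈ ({x}ᶜ : Set (V × Fin t))),
      ((blow G t).induce {x}ᶜ).Reachable ⟨(u, i), hi⟩ ⟨(v, j), hj⟩ := by
    intro u v q
    induction q with
    | nil =>
      rename_i a
      intro i j hi hj
      by_cases hij : i = j
      · subst hij; exact Reachable.refl _
      · have hadj : ((blow G t).induce {x}ᶜ).Adj ⟨(a, i), hi⟩ ⟨(a, j), hj⟩ :=
          Or.inr ⟨rfl, hij⟩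
        exact hadj.reachable
    | cons h q ih =>
      rename_i a b c
      intro i j hi hj
      obtain ⟨i', hi'⟩ : ∃ i' : Fin t, i' ≠ x.2 := by
        have : Nontrivial (Fin t) := Fin.nontrivial_iff_two_le.2 ht
        exact exists_ne x.2
      have hmem : (b, i') ∈ ({x}ᶜ : Set (V × Fin t)) := by
        intro h'
        have h'' : (b, i') = x := h'
        exact hi' (by rw [← h''])
      have hadj : ((blow G t).induce {x}ᶜ).Adj ⟨(a, i), hi⟩ ⟨(b, i'), hmem⟩ := Or.inl h
      exact hadj.reachable.trans (ih i' j hmem hj)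
  obtain ⟨i', hi'⟩ : ∃ i' : Fin t, i' ≠ x.2 := by
    have : Nontrivial (Fin t) := Fin.nontrivial_iff_two_le.2 ht
    exact exists_ne x.2
  have hmem : (x.1, i') ∈ ({x}ᶜ : Set (V × Fin t)) := by
    intro h'
    have h'' : (x.1, i') = x := h'
    exact hi' (by rw [← h''])
  have : Nonempty ({x}ᶜ : Set (V × Fin t)) := ⟨⟨(x.1, i'), hmem⟩⟩
  refine ⟨?_⟩
  rintro ⟨⟨u, i⟩, hi⟩ ⟨⟨v, j⟩, hj⟩
  obtain ⟨q⟩ := hc.preconnected u v
  exact key q i j hi hj

/-- Degrees are large. -/
theorem blow_degree [Nontrivial V] (hc : G.Connected) (x : V × Fin t) :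
    t ≤ ((blow G t).neighborSet x).ncard := by
  obtain ⟨u, hu⟩ := hc.preconnected.exists_adj_of_nontrivial x.1
  have hsub : Set.range (fun j : Fin t => (u, j)) ⊆ (blow G t).neighborSet x := by
    rintro _ ⟨j, rfl⟩
    exact Or.inl hu
  have h1 := Set.ncard_le_ncard hsub (Set.toFinite _)
  rw [← Set.image_univ, Set.ncard_image_of_injective _ (fun a b h => congrArg Prod.snd h),
    Set.ncard_univ] at h1
  simpa using h1

end blow

end Pool.Agent.KS6_49.BN
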